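import Pool.Agent.H779R2.Nu.MainNP

set_option autoImplicit false

open scoped Manifold ContDiff Topology Bundle
open Set Filter Bundle

namespace Pool.Agent.Results.MP_afa31c_an.ConformalBundlePeriodic

open Pool.Agent.H721R2 Pool.Agent.H789R2.AN Pool.Agent.H779R2.An Pool.Agent.H779R2.Nu

/-- **Density of periodic points for Anosov diffeomorphisms with a conformal bundle.**
Let `f` be a `C²` Anosov diffeomorphism of a closed connected smooth manifold `M`, with splitting
`TM = Es ⊕ Eu` into bundles of positive rank `ds`, `du`.  Suppose that one of the following holds: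
* (conformal) `ds ≥ 2`, `du ≥ 2` and `f` is conformal on one of the two bundles with respect to a
  continuous Riemannian metric on this bundle (`InvConfOn`);
* (complex) one of the two bundles has rank `2` and carries a continuous `Df`-invariant complex
  structure (`InvComplexOn`), and the other one has rank at least `2`;
* (quasiconformal) `f` is uniformly quasiconformal on `Es` and on `Eu` (`UniformlyQC`) and the one
  of smaller rank carries a continuous `Df`-invariant complex structure;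
* (almost complex) `f` preserves a continuous almost complex structure on `M` (`PreservesAC`) and
  either one of the bundles has rank `2` or `f` is uniformly quasiconformal on `Es` and `Eu`.
Then the periodic points of `f` are dense, and every point of `M` is nonwandering. -/
theorem result (E : Type*) [NormedAddCommGroup E] [NormedSpace ℝ E] [FiniteDimensional ℝ E]
    (M : Type*) [TopologicalSpace M] [T2Space M] [CompactSpace M] [ConnectedSpace M]
    [ChartedSpace E M] [IsManifold 𝓘(ℝ, E) ∞ M] (f : Diffeomorph 𝓘(ℝ, E) 𝓘(ℝ, E) M M 1)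
    (hf2 : ContMDiff 𝓘(ℝ, E) 𝓘(ℝ, E) 2 f) (hf2' : ContMDiff 𝓘(ℝ, E) 𝓘(ℝ, E) 2 f.symm)
    (Es Eu : ∀ x : M, Submodule ℝ (TangentSpace 𝓘(ℝ, E) x)) (hA : IsAnosov f Es Eu)
    (ds du : ℕ) (hds1 : 1 ≤ ds) (hdu1 : 1 ≤ du) (hds : ∀ x, Module.finrank ℝ (Es x) = ds)
    (hdu : ∀ x, Module.finrank ℝ (Eu x) = du)
    (hJ : (2 ≤ ds ∧ 2 ≤ du ∧ ((∃ G, InvConfOn f Eu G) ∨ ∃ G, InvConfOn f Es G)) ∨
      (du = 2 ∧ 2 ≤ ds ∧ ∃ J, InvComplexOn f Eu J) ∨
      (ds = 2 ∧ 2 ≤ du ∧ ∃ J, InvComplexOn f Es J) ∨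
      ((∃ N : TangentBundle 𝓘(ℝ, E) M → ℝ, IsTangentNorm N ∧ UniformlyQC f N Es ∧
        UniformlyQC f N Eu) ∧
        ((du ≤ ds ∧ ∃ J, InvComplexOn f Eu J) ∨ (ds ≤ du ∧ ∃ J, InvComplexOn f Es J))) ∨
      ((du = 2 ∨ ds = 2 ∨ ∃ N : TangentBundle 𝓘(ℝ, E) M → ℝ, IsTangentNorm N ∧
        UniformlyQC f N Es ∧ UniformlyQC f N Eu) ∧
        ∃ J : ∀ x : M, TangentSpace 𝓘(ℝ, E) x →ₗ[ℝ] TangentSpace 𝓘(ℝ, E) x, PreservesAC f J)) :
    Dense (Function.periodicPts f) ∧
      ∀ x : M, ∀ U ∈ 𝓝 x, ∃ n : ℕ, 1 ≤ n ∧ (f^[n] '' U ∩ U).Nonempty := by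
  have key : Dense (Function.periodicPts f) := by
    rcases hJ with ⟨h3, h4, h⟩ | hJ
    · exact main_periodicD E M f hf2 hf2' Es Eu hA ds du hds hdu
        (h.imp (fun h => ⟨h4, h3, h⟩) (fun h => ⟨h3, h4, h⟩))
    refine main_periodic E M f hf2 hf2' Es Eu hA ds du hds1 hdu1 hds hdu ?_
    rcases hJ with h | h | h | ⟨hq, J, h⟩
    · exact Or.inr (Or.inl h)
    · exact Or.inr (Or.inr h)
    · exact Or.inl h
    · obtain ⟨hs, hu⟩ := h.invComplexOn hA
      obtain ⟨x⟩ : Nonempty M := inferInstance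
      haveI : FiniteDimensional ℝ (TangentSpace 𝓘(ℝ, E) x) :=
        inferInstanceAs (FiniteDimensional ℝ E)
      have e1 : 2 ≤ ds := by
        have := two_le_finrank_of_sq (Es x) (J x) (hs.mem x) (hs.sq x) (hds1.trans (hds x).ge)
        exact this.trans (hds x).le
      have e2 : 2 ≤ du := by
        have := two_le_finrank_of_sq (Eu x) (J x) (hu.mem x) (hu.sq x) (hdu1.trans (hdu x).ge)
        exact this.trans (hdu x).le
      rcases hq with h2 | h2 | h2
      · exact Or.inr (Or.inl ⟨h2, e1, J, hu⟩)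
      · exact Or.inr (Or.inr ⟨h2, e2, J, hs⟩)
      · rcases le_total du ds with hle | hle
        · exact Or.inl ⟨h2, Or.inl ⟨hle, J, hu⟩⟩
        · exact Or.inl ⟨h2, Or.inr ⟨hle, J, hs⟩⟩
  refine ⟨key, fun x U hU => ?_⟩
  obtain ⟨y, ⟨n, hn, hy⟩, hyU⟩ := key.inter_nhds_nonempty hU
  exact ⟨n, hn, y, ⟨y, hyU, hy⟩, hyU⟩

end Pool.Agent.Results.MP_afa31c_an.ConformalBundlePeriodic
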